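import Pool.Agent.Lib.MP_d2b090_co.LM.Round

/-!
One laminar clustering that serves every panel size, and the splitting of a set with lower quota
along a laminar family of sets of panels.
-/

set_option linter.unusedSectionVars false

open Finset

namespace Pool.Agent.Lib.MP_d2b090_co.LM

variable {V : Type*} [DecidableEq V] [Fintype V]

/-- `c v` is the class of `v` in a partition -/
def IsPart (c : V → Finset V) : Prop := (∀ v, v ∈ c v) ∧ ∀ u v, u ∈ c v → c u = c v

section Metric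
variable {X : Type*} [MetricSpace X] (loc : V → X)

/-- all distances inside `T` are at most `r` -/
def Small (r : ℝ) (T : Finset V) : Prop := ∀ a ∈ T, ∀ b ∈ T, dist (loc a) (loc b) ≤ r

theorem step_aux {c : V → Finset V} (hc : IsPart c) {D r : ℝ} (hr : 0 ≤ r)
    (hD : ∀ v, Small loc D (c v)) (m : ℕ) : ∀ R : Finset V, R.card ≤ m → (∀ v ∈ R, c v ⊆ R) →
      ∃ c' : V → Finset V, (∀ v ∈ R, c v ⊆ c' v ∧ c' v ⊆ R ∧ Small loc (r + 2 * D) (c' v) ∧
        ∀ u ∈ c' v, c' u = c' v) ∧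
        ∀ S : Finset V, S ⊆ R → S.Nonempty → Small loc r S → ∃ s ∈ S, S.card ≤ (c' s).card := by
  classical
  have base : ∃ c' : V → Finset V, (∀ v ∈ (∅ : Finset V), c v ⊆ c' v ∧ c' v ⊆ ∅ ∧
      Small loc (r + 2 * D) (c' v) ∧ ∀ u ∈ c' v, c' u = c' v) ∧
      ∀ S : Finset V, S ⊆ ∅ → S.Nonempty → Small loc r S → ∃ s ∈ S, S.card ≤ (c' s).card :=
    ⟨c, fun v hv => absurd hv (notMem_empty v), fun S hS ⟨s, hs⟩ _ =>
      absurd (hS hs) (notMem_empty s)⟩
  induction m with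
  | zero =>
    intro R hR _
    obtain rfl : R = ∅ := card_eq_zero.1 (by omega)
    exact base
  | succ m ih =>
    intro R hR hsat
    rcases R.eq_empty_or_nonempty with rfl | ⟨x, hx⟩
    · exact base
    have hD0 : 0 ≤ D := dist_nonneg.trans (hD x x (hc.1 x) x (hc.1 x))
    set F := (univ : Finset (Finset V)).filter
      fun T => T ⊆ R ∧ (∀ v ∈ T, c v ⊆ T) ∧ Small loc (r + 2 * D) T with hF
    have hxF : c x ∈ F := mem_filter.2 ⟨mem_univ _, hsat x hx, fun v hv => (hc.2 v x hv).le,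
      fun a ha b hb => (hD x a ha b hb).trans (by linarith)⟩
    obtain ⟨T, hT, hmax⟩ := exists_max_image F card ⟨_, hxF⟩
    obtain ⟨t1, t2, t3⟩ := (mem_filter.1 hT).2
    have hTpos : 0 < T.card := lt_of_lt_of_le (card_pos.2 ⟨x, hc.1 x⟩) (hmax _ hxF)
    obtain ⟨c', h1, h2⟩ := ih (R \ T) (by
      have := card_sdiff_add_card_eq_card t1
      omega) (fun v hv u hu => by
        obtain ⟨v1, v2⟩ := mem_sdiff.1 hv
        refine mem_sdiff.2 ⟨hsat v v1 hu, fun hT' => v2 (t2 u hT' ?_)⟩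
        rw [hc.2 u v hu]
        exact hc.1 v)
    refine ⟨fun v => if v ∈ T then T else c' v, fun v hv => ?_, fun S hS hne hs => ?_⟩
    · by_cases hvT : v ∈ T
      · simp only [if_pos hvT]
        exact ⟨t2 v hvT, t1, t3, fun u hu => if_pos hu⟩
      · simp only [if_neg hvT]
        obtain ⟨a1, a2, a3, a4⟩ := h1 v (mem_sdiff.2 ⟨hv, hvT⟩)
        refine ⟨a1, a2.trans sdiff_subset, a3, fun u hu => ?_⟩
        rw [if_neg (mem_sdiff.1 (a2 hu)).2]
        exact a4 u hu
    · by_cases hST : ∃ s ∈ S, s ∈ T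
      · obtain ⟨s, s1, s2⟩ := hST
        refine ⟨s, s1, ?_⟩
        simp only [if_pos s2]
        have hsub : S ⊆ S.biUnion c := fun v hv => mem_biUnion.2 ⟨v, hv, hc.1 v⟩
        refine (card_le_card hsub).trans (hmax _ (mem_filter.2 ⟨mem_univ _, ?_, ?_, ?_⟩))
        · exact biUnion_subset.2 fun v hv => hsat v (hS hv)
        · intro v hv
          obtain ⟨w, w1, w2⟩ := mem_biUnion.1 hv
          rw [hc.2 v w w2]
          exact subset_biUnion_of_mem c w1
        · intro a ha b hb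
          obtain ⟨a', a1, a2⟩ := mem_biUnion.1 ha
          obtain ⟨b', b1, b2⟩ := mem_biUnion.1 hb
          have e1 := hD a' a a2 a' (hc.1 a')
          have e2 := hD b' b' (hc.1 b') b b2
          have e3 := hs a' a1 b' b1
          have e4 := dist_triangle4 (loc a) (loc a') (loc b') (loc b)
          linarith
      · push Not at hST
        obtain ⟨s, s1, s2⟩ := h2 S (fun v hv => mem_sdiff.2 ⟨hS hv, hST v hv⟩) hne hs
        exact ⟨s, s1, by simpa only [if_neg (hST s s1)] using s2⟩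

theorem step {c : V → Finset V} (hc : IsPart c) {D r : ℝ} (hr : 0 ≤ r)
    (hD : ∀ v, Small loc D (c v)) : ∃ c' : V → Finset V, IsPart c' ∧ (∀ v, c v ⊆ c' v) ∧
      (∀ v, Small loc (r + 2 * D) (c' v)) ∧
      ∀ S : Finset V, S.Nonempty → Small loc r S → ∃ s ∈ S, S.card ≤ (c' s).card := by
  obtain ⟨c', h1, h2⟩ := step_aux loc hc hr hD _ univ le_rfl fun v _ => subset_univ _
  exact ⟨c', ⟨fun v => (h1 v (mem_univ v)).1 (hc.1 v), fun u v h => (h1 v (mem_univ v)).2.2.2 u h⟩,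
    fun v => (h1 v (mem_univ v)).1, fun v => (h1 v (mem_univ v)).2.2.1,
    fun S => h2 S (subset_univ S)⟩

/-- the chain of partitions: scale zero first, then the scales `δ * 4 ^ j` -/
theorem levels {δ : ℝ} (hδ : 0 < δ) : ∃ c : ℕ → V → Finset V, (∀ j, IsPart (c j)) ∧
    (∀ j v, c j v ⊆ c (j + 1) v) ∧ (∀ v, Small loc 0 (c 0 v)) ∧
    (∀ j v, Small loc (2 * (δ * 4 ^ j)) (c (j + 1) v)) ∧
    (∀ S : Finset V, S.Nonempty → Small loc 0 S → ∃ s ∈ S, S.card ≤ (c 0 s).card) ∧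
    ∀ j, ∀ S : Finset V, S.Nonempty → Small loc (δ * 4 ^ j) S →
      ∃ s ∈ S, S.card ≤ (c (j + 1) s).card := by
  obtain ⟨c0, a1, -, a3, a4⟩ := step loc (c := fun v => {v}) (D := 0) (r := 0)
    ⟨fun v => mem_singleton_self v, fun u v h => by rw [mem_singleton.1 h]⟩ le_rfl
    (fun v a ha b hb => by rw [mem_singleton.1 ha, mem_singleton.1 hb, dist_self])
  have st : ∀ (j : ℕ) (c : {c : V → Finset V // IsPart c ∧ ∀ v, Small loc (δ * 4 ^ j / 2) (c v)}),
      ∃ c' : {c : V → Finset V // IsPart c ∧ ∀ v, Small loc (δ * 4 ^ (j + 1) / 2) (c v)},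
        (∀ v, c.1 v ⊆ c'.1 v) ∧ ∀ S : Finset V, S.Nonempty → Small loc (δ * 4 ^ j) S →
          ∃ s ∈ S, S.card ≤ (c'.1 s).card := by
    intro j c
    obtain ⟨c', b1, b2, b3, b4⟩ := step loc c.2.1 (r := δ * 4 ^ j) (by positivity) c.2.2
    exact ⟨⟨c', b1, fun v a ha b hb => (b3 v a ha b hb).trans (le_of_eq (by ring))⟩, b2, b4⟩
  choose f hf1 hf2 using st
  let g : ∀ j : ℕ, {c : V → Finset V // IsPart c ∧ ∀ v, Small loc (δ * 4 ^ j / 2) (c v)} :=
    fun j => Nat.rec ⟨c0, a1, fun v a ha b hb => (a3 v a ha b hb).trans (by norm_num; positivity)⟩ f j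
  refine ⟨fun j => (g j).1, fun j => (g j).2.1, fun j => hf1 j (g j), fun v a ha b hb => ?_,
    fun j v a ha b hb => ((g (j + 1)).2.2 v a ha b hb).trans (le_of_eq (by ring)), a4,
    fun j => hf2 j (g j)⟩
  simpa using a3 v a ha b hb

/-- one laminar family for all panel sizes -/
theorem clusters : ∃ L : Finset (Finset V), Lam L ∧ (∀ v, {v} ∈ L) ∧ univ ∈ L ∧
    ∀ (S : Finset V) (r : ℝ), S.Nonempty → Small loc r S →
      ∃ C ∈ L, S.card ≤ C.card ∧ ∃ s ∈ S, ∀ u ∈ C, dist (loc u) (loc s) ≤ 8 * r := by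
  classical
  obtain ⟨δ, hδ, hmin⟩ : ∃ δ : ℝ, 0 < δ ∧ ∀ a b : V, dist (loc a) (loc b) < δ →
      dist (loc a) (loc b) ≤ 0 := by
    by_cases h : ((univ : Finset (V × V)).filter fun p => 0 < dist (loc p.1) (loc p.2)).Nonempty
    · obtain ⟨p, hp, hm⟩ := exists_min_image _ (fun p : V × V => dist (loc p.1) (loc p.2)) h
      refine ⟨_, (mem_filter.1 hp).2, fun a b hab => ?_⟩
      by_contra hc
      exact absurd (hm (a, b) (mem_filter.2 ⟨mem_univ _, not_le.1 hc⟩)) (not_le.2 hab)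
    · refine ⟨1, one_pos, fun a b _ => ?_⟩
      by_contra hc
      exact h ⟨(a, b), mem_filter.2 ⟨mem_univ _, not_le.1 hc⟩⟩
  obtain ⟨c, h1, h2, h3, h4, h5, h6⟩ := levels loc hδ
  have mono : ∀ v, Monotone fun j => c j v := fun v => monotone_nat_of_le_succ fun j => h2 j v
  have lam : ∀ i j u v, i ≤ j → c i u ⊆ c j v ∨ Disjoint (c i u) (c j v) := by
    intro i j u v hij
    by_cases hd : Disjoint (c i u) (c j v)
    · exact Or.inr hd
    · obtain ⟨w, w1, w2⟩ := not_disjoint_iff.1 hd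
      left
      rw [← (h1 i).2 w u w1, ← (h1 j).2 w v w2]
      exact mono w hij
  refine ⟨univ.filter fun C => C = univ ∨ (∃ v, C = {v}) ∨ ∃ j v, C = c j v, ?_,
    fun v => mem_filter.2 ⟨mem_univ _, Or.inr (Or.inl ⟨v, rfl⟩)⟩,
    mem_filter.2 ⟨mem_univ _, Or.inl rfl⟩, fun S r hne hs => ?_⟩
  · intro C hC D hD
    rcases (mem_filter.1 hC).2 with rfl | ⟨u, rfl⟩ | ⟨i, u, rfl⟩
    · exact Or.inr (Or.inl (subset_univ _))
    · by_cases h : u ∈ D
      · exact Or.inl (singleton_subset_iff.2 h)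
      · exact Or.inr (Or.inr (disjoint_singleton_left.2 h))
    rcases (mem_filter.1 hD).2 with rfl | ⟨v, rfl⟩ | ⟨j, v, rfl⟩
    · exact Or.inl (subset_univ _)
    · by_cases h : v ∈ c i u
      · exact Or.inr (Or.inl (singleton_subset_iff.2 h))
      · exact Or.inr (Or.inr (disjoint_singleton_right.2 h))
    rcases le_total i j with h | h
    · exact (lam i j u v h).imp_right Or.inr
    · exact Or.inr ((lam j i v u h).imp_right fun h => h.symm)
  have mem : ∀ j v, c j v ∈ univ.filter fun C : Finset V =>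
      C = univ ∨ (∃ v, C = {v}) ∨ ∃ j v, C = c j v :=
    fun j v => mem_filter.2 ⟨mem_univ _, Or.inr (Or.inr ⟨j, v, rfl⟩)⟩
  by_cases hr : r < δ
  · obtain ⟨s, s1, s2⟩ := h5 S hne fun a ha b hb => hmin a b ((hs a ha b hb).trans_lt hr)
    have hr0 : 0 ≤ r := dist_nonneg.trans (hs s s1 s s1)
    exact ⟨_, mem 0 s, s2, s, s1, fun u hu => (h3 s u hu s ((h1 0).1 s)).trans (by linarith)⟩
  · have hr1 : 1 ≤ r / δ := (one_le_div hδ).2 (not_lt.1 hr)
    obtain ⟨j, j1, j2⟩ := exists_nat_pow_near hr1 (by norm_num : (1 : ℝ) < 4)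
    rw [le_div_iff₀ hδ] at j1
    rw [div_lt_iff₀ hδ] at j2
    obtain ⟨s, s1, s2⟩ := h6 (j + 1) S hne fun a ha b hb => (hs a ha b hb).trans (by linarith)
    refine ⟨_, mem _ s, s2, s, s1, fun u hu => (h4 _ s u hu s ((h1 _).1 s)).trans ?_⟩
    rw [pow_succ]
    linarith

end Metric

/-- splitting along a laminar family of sets of panels -/
theorem panels {ι : Type*} [DecidableEq ι] {L : Finset (Finset V)} (hL : Lam L)
    (h1 : ∀ v, {v} ∈ L) (hu : univ ∈ L) (hn : 0 < Fintype.card V) (k : ι → ℕ)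
    {J : Finset (Finset ι)} (hJ : Lam J) (hJ1 : ∀ i, {i} ∈ J) (m : ℕ) :
    ∀ (I : Finset ι) (U : Finset V), I.card ≤ m → I.Nonempty → LQ L (∑ i ∈ I, k i) U →
      ∃ P : ι → Finset V, I.biUnion P = U ∧ (∀ i ∈ I, ∀ j ∈ I, i ≠ j → Disjoint (P i) (P j)) ∧
        ∀ A ∈ J, A ⊆ I → A.Nonempty → LQ L (∑ i ∈ A, k i) (A.biUnion P) := by
  induction m with
  | zero =>
    intro I U hI hne _
    exact absurd (card_pos.2 hne) (by omega)
  | succ m ih =>
    intro I U hI hne hU
    by_cases hF : (J.filter fun A => A ⊆ I ∧ A ≠ I ∧ A.Nonempty).Nonempty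
    swap
    · obtain ⟨x, hx⟩ := hne
      have hIx : {x} = I := by
        by_contra hc
        exact hF ⟨{x}, mem_filter.2 ⟨hJ1 x, singleton_subset_iff.2 hx, hc, singleton_nonempty x⟩⟩
      subst hIx
      refine ⟨fun _ => U, by simp, fun i hi j hj hij => ?_, fun A _ hA hAn => ?_⟩
      · exact absurd ((mem_singleton.1 hi).trans (mem_singleton.1 hj).symm) hij
      · rw [(subset_singleton_iff.1 hA).resolve_left hAn.ne_empty]
        simpa using hU
    obtain ⟨B, hB, hmax⟩ := exists_max_image _ card hF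
    obtain ⟨hBJ, b1, b2, b3⟩ := mem_filter.1 hB
    have hlt : B.card < I.card := card_lt_card (ssubset_of_subset_of_ne b1 b2)
    have hc := card_sdiff_add_card_eq_card b1
    have hpos := card_pos.2 b3
    have hsum : ∑ i ∈ I, k i = ∑ i ∈ B, k i + ∑ i ∈ I \ B, k i := by
      rw [add_comm, sum_sdiff b1]
    obtain ⟨Y, y1, y2, y3⟩ := split hL h1 hu hn (hsum ▸ hU)
    obtain ⟨P1, p1, p2, p3⟩ := ih B Y (by omega) b3 y2
    obtain ⟨P2, q1, q2, q3⟩ := ih (I \ B) (U \ Y) (by omega) (card_pos.1 (by omega)) y3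
    have s1 : ∀ A, A ⊆ B → (A.biUnion fun i => if i ∈ B then P1 i else P2 i) = A.biUnion P1 :=
      fun A hA => biUnion_congr rfl fun i hi => if_pos (hA hi)
    have s2 : ∀ A, A ⊆ I \ B → (A.biUnion fun i => if i ∈ B then P1 i else P2 i) = A.biUnion P2 :=
      fun A hA => biUnion_congr rfl fun i hi => if_neg (mem_sdiff.1 (hA hi)).2
    have hall : (I.biUnion fun i => if i ∈ B then P1 i else P2 i) = U := by
      conv_lhs => rw [← union_sdiff_of_subset b1]
      rw [union_biUnion, s1 B Subset.rfl, s2 _ Subset.rfl, p1, q1, union_sdiff_of_subset y1]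
    have cross : ∀ i ∈ B, ∀ j ∈ I \ B, Disjoint (P1 i) (P2 j) := fun i hi j hj =>
      disjoint_sdiff.mono (p1 ▸ subset_biUnion_of_mem P1 hi) (q1 ▸ subset_biUnion_of_mem P2 hj)
    refine ⟨fun i => if i ∈ B then P1 i else P2 i, hall, fun i hi j hj hij => ?_,
      fun A hA hAI hAn => ?_⟩
    · by_cases hiB : i ∈ B <;> by_cases hjB : j ∈ B
      · simpa only [if_pos hiB, if_pos hjB] using p2 i hiB j hjB hij
      · simpa only [if_pos hiB, if_neg hjB] using cross i hiB j (mem_sdiff.2 ⟨hj, hjB⟩)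
      · simpa only [if_neg hiB, if_pos hjB] using (cross j hjB i (mem_sdiff.2 ⟨hi, hiB⟩)).symm
      · simpa only [if_neg hiB, if_neg hjB] using
          q2 i (mem_sdiff.2 ⟨hi, hiB⟩) j (mem_sdiff.2 ⟨hj, hjB⟩) hij
    · by_cases hAI' : A = I
      · rw [hAI', hall]
        exact hU
      have hAB : A ⊆ B ∨ A ⊆ I \ B := by
        rcases hJ A hA B hBJ with h | h | h
        · exact Or.inl h
        · exact Or.inl
            (eq_of_subset_of_card_le h (hmax A (mem_filter.2 ⟨hA, hAI, hAI', hAn⟩))).ge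
        · exact Or.inr (subset_sdiff.2 ⟨hAI, h⟩)
      rcases hAB with h | h
      · rw [s1 A h]
        exact p3 A hA h hAn
      · rw [s2 A h]
        exact q3 A hA h hAn

end Pool.Agent.Lib.MP_d2b090_co.LM
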