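import Mathlib

/-!
Integer points with prescribed sums on a laminar family, and two splitting lemmas.
-/

set_option linter.unusedSectionVars false

open Finset

namespace Pool.Agent.Lib.MP_d2b090_co.LM

/-- any two members are nested or disjoint -/
def Lam {V : Type*} (L : Finset (Finset V)) : Prop :=
  ∀ C ∈ L, ∀ D ∈ L, C ⊆ D ∨ D ⊆ C ∨ Disjoint C D

variable {V : Type*} [DecidableEq V]

theorem range_aux (lo hi : Finset V → ℤ) (l0 : lo ∅ = 0) (h0 : hi ∅ = 0)
    (hlo : ∀ A B, Disjoint A B → lo A + lo B ≤ lo (A ∪ B))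
    (hhi : ∀ A B, Disjoint A B → hi (A ∪ B) ≤ hi A + hi B) (m : ℕ) :
    ∀ (L : Finset (Finset V)) (R : Finset V), L.card ≤ m → Lam L → (∀ C ∈ L, C ⊆ R) →
      (∀ C ∈ L, lo C ≤ hi C) → ∃ a b : ℤ, a ≤ lo R ∧ hi R ≤ b ∧ a ≤ b ∧ ∀ t, a ≤ t → t ≤ b →
        ∃ Y : V → ℤ, ∑ v ∈ R, Y v = t ∧ ∀ C ∈ L, lo C ≤ ∑ v ∈ C, Y v ∧ ∑ v ∈ C, Y v ≤ hi C := by
  have base : ∀ R : Finset V, ∃ a b : ℤ, a ≤ lo R ∧ hi R ≤ b ∧ a ≤ b ∧ ∀ t, a ≤ t → t ≤ b →
      ∃ Y : V → ℤ, ∑ v ∈ R, Y v = t ∧
        ∀ C ∈ (∅ : Finset (Finset V)), lo C ≤ ∑ v ∈ C, Y v ∧ ∑ v ∈ C, Y v ≤ hi C := by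
    intro R
    rcases R.eq_empty_or_nonempty with rfl | ⟨x, hx⟩
    · exact ⟨0, 0, l0.ge, h0.le, le_rfl, fun t h1 h2 =>
        ⟨fun _ => 0, by simp; omega, fun C hC => absurd hC (notMem_empty C)⟩⟩
    · refine ⟨min (lo R) (hi R), max (lo R) (hi R), min_le_left _ _, le_max_right _ _,
        min_le_max, fun t _ _ => ⟨fun v => if v = x then t else 0, by simp [hx],
          fun C hC => absurd hC (notMem_empty C)⟩⟩
  induction m with
  | zero =>
    intro L R hL _ _ _
    obtain rfl : L = ∅ := card_eq_zero.1 (by omega)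
    exact base R
  | succ m ih =>
    intro L R hL hlam hsub hle
    rcases L.eq_empty_or_nonempty with rfl | hne
    · exact base R
    obtain ⟨C0, hC0, hmax⟩ := exists_max_image L card hne
    have c1 : ((L.erase C0).filter (· ⊆ C0)).card ≤ m := by
      have := card_filter_le (L.erase C0) (· ⊆ C0)
      rw [card_erase_of_mem hC0] at this
      omega
    have c2 : ((L.erase C0).filter (fun C => ¬ C ⊆ C0)).card ≤ m := by
      have := card_filter_le (L.erase C0) (fun C => ¬ C ⊆ C0)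
      rw [card_erase_of_mem hC0] at this
      omega
    have m1 : ∀ C ∈ (L.erase C0).filter (· ⊆ C0), C ∈ L := fun C hC =>
      mem_of_mem_erase (mem_filter.1 hC).1
    have m2 : ∀ C ∈ (L.erase C0).filter (fun C => ¬ C ⊆ C0), C ∈ L := fun C hC =>
      mem_of_mem_erase (mem_filter.1 hC).1
    have d2 : ∀ C ∈ (L.erase C0).filter (fun C => ¬ C ⊆ C0), C ⊆ R \ C0 := by
      intro C hC
      have hn := (mem_filter.1 hC).2
      rcases hlam C (m2 C hC) C0 hC0 with h | h | h
      · exact absurd h hn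
      · exact absurd (eq_of_subset_of_card_le h (hmax C (m2 C hC))).ge hn
      · exact subset_sdiff.2 ⟨hsub C (m2 C hC), h⟩
    obtain ⟨a1, b1, p1, p2, -, p4⟩ := ih _ C0 c1 (fun C hC D hD => hlam C (m1 C hC) D (m1 D hD))
      (fun C hC => (mem_filter.1 hC).2) (fun C hC => hle C (m1 C hC))
    obtain ⟨a2, b2, q1, q2, q3, q4⟩ := ih _ (R \ C0) c2
      (fun C hC D hD => hlam C (m2 C hC) D (m2 D hD)) d2 (fun C hC => hle C (m2 C hC))
    have hU : C0 ∪ R \ C0 = R := union_sdiff_of_subset (hsub C0 hC0)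
    have e1 := hlo C0 (R \ C0) disjoint_sdiff
    have e2 := hhi C0 (R \ C0) disjoint_sdiff
    rw [hU] at e1 e2
    have e3 := hle C0 hC0
    refine ⟨lo C0 + a2, hi C0 + b2, by omega, by omega, by omega, fun t h1 h2 => ?_⟩
    obtain ⟨Y1, y1, y2⟩ := p4 (min (hi C0) (t - a2)) (by omega) (by omega)
    obtain ⟨Y2, z1, z2⟩ := q4 (t - min (hi C0) (t - a2)) (by omega) (by omega)
    have s1 : ∀ C, C ⊆ C0 → ∑ v ∈ C, (if v ∈ C0 then Y1 v else Y2 v) = ∑ v ∈ C, Y1 v :=
      fun C hC => sum_congr rfl fun v hv => if_pos (hC hv)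
    have s2 : ∀ C, C ⊆ R \ C0 → ∑ v ∈ C, (if v ∈ C0 then Y1 v else Y2 v) = ∑ v ∈ C, Y2 v :=
      fun C hC => sum_congr rfl fun v hv => if_neg (mem_sdiff.1 (hC hv)).2
    refine ⟨fun v => if v ∈ C0 then Y1 v else Y2 v, ?_, fun C hC => ?_⟩
    · rw [← hU, sum_union disjoint_sdiff, s1 C0 Subset.rfl, s2 _ Subset.rfl, y1, z1]
      ring
    · by_cases hC1 : C = C0
      · subst hC1
        rw [s1 C Subset.rfl, y1]
        omega
      by_cases hC2 : C ⊆ C0
      · rw [s1 C hC2]
        exact y2 C (mem_filter.2 ⟨mem_erase.2 ⟨hC1, hC⟩, hC2⟩)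
      · have hm : C ∈ (L.erase C0).filter (fun C => ¬ C ⊆ C0) :=
          mem_filter.2 ⟨mem_erase.2 ⟨hC1, hC⟩, hC2⟩
        rw [s2 C (d2 C hm)]
        exact z2 C hm

/-- a superadditive lower bound below a subadditive upper bound can be met by an integer point -/
theorem feasible [Fintype V] {L : Finset (Finset V)} (hL : Lam L) (lo hi : Finset V → ℤ)
    (l0 : lo ∅ = 0) (h0 : hi ∅ = 0) (hlo : ∀ A B, Disjoint A B → lo A + lo B ≤ lo (A ∪ B))
    (hhi : ∀ A B, Disjoint A B → hi (A ∪ B) ≤ hi A + hi B) (hle : ∀ C ∈ L, lo C ≤ hi C) :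
    ∃ Y : V → ℤ, ∀ C ∈ L, lo C ≤ ∑ v ∈ C, Y v ∧ ∑ v ∈ C, Y v ≤ hi C := by
  obtain ⟨a, b, -, -, h3, h4⟩ := range_aux lo hi l0 h0 hlo hhi _ L univ le_rfl hL
    (fun C _ => subset_univ C) hle
  obtain ⟨Y, -, hY⟩ := h4 a le_rfl h3
  exact ⟨Y, hY⟩

theorem sum_eq_card {Y : V → ℤ} [Fintype V] (h : ∀ v, 0 ≤ Y v ∧ Y v ≤ 1) (C : Finset V) :
    ∑ v ∈ C, Y v = (((univ.filter fun v => Y v = 1) ∩ C).card : ℤ) := by
  have e : (univ.filter fun v => Y v = 1) ∩ C = C.filter fun v => Y v = 1 := by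
    ext v
    simp [and_comm]
  rw [e, card_filter]
  push_cast
  refine sum_congr rfl fun v _ => ?_
  have := h v
  split_ifs <;> omega

variable [Fintype V]

/-- the share of the set `C` in a panel of size `k`, rounded down -/
def quo (k : ℕ) (C : Finset V) : ℕ := C.card * k / Fintype.card V

/-- `U` has size `k` and meets the lower quota on `L` -/
def LQ (L : Finset (Finset V)) (k : ℕ) (U : Finset V) : Prop :=
  U.card = k ∧ ∀ C ∈ L, quo k C ≤ (U ∩ C).card

theorem quo_super (k : ℕ) {A B : Finset V} (h : Disjoint A B) :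
    quo k A + quo k B ≤ quo k (A ∪ B) := by
  unfold quo
  rw [card_union_of_disjoint h, add_mul]
  exact Nat.div_add_div_le_add_div

theorem quo_add (k k' : ℕ) (A : Finset V) : quo k A + quo k' A ≤ quo (k + k') A := by
  unfold quo
  rw [mul_add]
  exact Nat.div_add_div_le_add_div

theorem quo_univ (hn : 0 < Fintype.card V) (k : ℕ) : quo k (univ : Finset V) = k := by
  unfold quo
  rw [card_univ, Nat.mul_div_cancel_left _ hn]

/-- a set with lower quota splits into two sets with lower quota, of any sizes -/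
theorem split {L : Finset (Finset V)} (hL : Lam L) (h1 : ∀ v, {v} ∈ L) (hu : univ ∈ L)
    (hn : 0 < Fintype.card V) {k k' : ℕ} {U : Finset V} (hU : LQ L (k + k') U) :
    ∃ Y, Y ⊆ U ∧ LQ L k Y ∧ LQ L k' (U \ Y) := by
  obtain ⟨Y, hY⟩ := feasible hL (fun C => quo k C) (fun C => ((U ∩ C).card : ℤ) - quo k' C)
    (by simp [quo]) (by simp [quo])
    (fun A B h => by exact_mod_cast quo_super k h)
    (fun A B h => by
      have e1 := quo_super k' h
      have e2 : (U ∩ (A ∪ B)).card ≤ (U ∩ A).card + (U ∩ B).card := by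
        rw [inter_union_distrib_left]
        exact card_union_le _ _
      omega)
    (fun C hC => by
      have e1 := quo_add k k' C
      have e2 := hU.2 C hC
      omega)
  have hv : ∀ v, 0 ≤ Y v ∧ Y v ≤ ((U ∩ {v}).card : ℤ) := fun v => by
    have := hY {v} (h1 v)
    rw [sum_singleton] at this
    omega
  have h01 : ∀ v, 0 ≤ Y v ∧ Y v ≤ 1 := fun v => by
    have e1 := hv v
    have e2 : (U ∩ {v}).card ≤ 1 := by
      simpa using card_le_card (inter_subset_right (s₁ := U) (s₂ := {v}))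
    omega
  have hsub : (univ.filter fun v => Y v = 1) ⊆ U := by
    intro v hv1
    by_contra hn'
    have e1 := hv v
    have e2 := (mem_filter.1 hv1).2
    rw [inter_singleton_of_notMem hn', card_empty] at e1
    omega
  simp only [sum_eq_card h01] at hY
  set Z := univ.filter fun v => Y v = 1
  have hd : ∀ C, ((U \ Z) ∩ C).card + (Z ∩ C).card = (U ∩ C).card := fun C => by
    rw [← card_union_of_disjoint (disjoint_sdiff.symm.mono inter_subset_left inter_subset_left),
      ← union_inter_distrib_right, sdiff_union_of_subset hsub]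
  have e1 := hY univ hu
  have e2 := hd univ
  simp only [quo_univ hn, inter_univ, hU.1] at e1 e2
  refine ⟨Z, hsub, ⟨by omega, fun C hC => ?_⟩, by omega, fun C hC => ?_⟩
  · have := hY C hC
    omega
  · have := hY C hC
    have := hd C
    omega

/-- decomposition of a weight into sets with lower quota -/
theorem decomp {L : Finset (Finset V)} (hL : Lam L) (h1 : ∀ v, {v} ∈ L) (hu : univ ∈ L)
    (K : ℕ) (m : ℕ) : ∀ u : V → ℤ, (∀ v, 0 ≤ u v ∧ u v ≤ m) → ∑ v, u v = m * K →
      (∀ C ∈ L, (m : ℤ) * quo K C ≤ ∑ v ∈ C, u v) →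
      ∃ U : Fin m → Finset V, (∀ i, LQ L K (U i)) ∧
        ∀ v, ∑ i, (if v ∈ U i then (1 : ℤ) else 0) = u v := by
  induction m with
  | zero =>
    intro u h _ _
    refine ⟨fun i => i.elim0, fun i => i.elim0, fun v => ?_⟩
    have := h v
    simp only [univ_eq_empty, sum_empty]
    omega
  | succ m ih =>
    intro u h hs hq
    have hm : (0 : ℤ) < (m : ℤ) + 1 := by omega
    have dv : ∀ a b : ℤ, a / ((m : ℤ) + 1) + b / ((m : ℤ) + 1) ≤ (a + b) / ((m : ℤ) + 1) := by
      intro a b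
      rw [Int.le_ediv_iff_mul_le hm, add_mul]
      exact add_le_add (Int.ediv_mul_le _ hm.ne') (Int.ediv_mul_le _ hm.ne')
    obtain ⟨Y, hY⟩ := feasible hL (fun C => (∑ v ∈ C, u v) / ((m : ℤ) + 1))
      (fun C => -((-∑ v ∈ C, u v) / ((m : ℤ) + 1))) (by simp) (by simp)
      (fun A B hd => by rw [sum_union hd]; exact dv _ _)
      (fun A B hd => by
        rw [sum_union hd, neg_add]
        linarith [dv (-∑ v ∈ A, u v) (-∑ v ∈ B, u v)])
      (fun C _ => by
        have := dv (∑ v ∈ C, u v) (-∑ v ∈ C, u v)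
        rw [add_neg_cancel, Int.zero_ediv] at this
        linarith)
    have key : ∀ C ∈ L, (∑ v ∈ C, u v) < ((∑ v ∈ C, Y v) + 1) * ((m : ℤ) + 1) ∧
        ((∑ v ∈ C, Y v) - 1) * ((m : ℤ) + 1) < ∑ v ∈ C, u v := fun C hC => by
      obtain ⟨e1, e2⟩ := hY C hC
      have e3 := (Int.ediv_lt_iff_lt_mul hm).1 (Int.lt_add_one_iff.2 e1)
      have e4 := (Int.ediv_lt_iff_lt_mul hm).1 (Int.lt_add_one_iff.2 (le_neg.1 e2))
      exact ⟨e3, by linarith⟩
    push_cast at h hs hq
    have hv : ∀ v, (0 ≤ Y v ∧ Y v ≤ 1) ∧ 0 ≤ u v - Y v ∧ u v - Y v ≤ m := fun v => by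
      have e := key {v} (h1 v)
      rw [sum_singleton, sum_singleton] at e
      obtain ⟨e1, e2⟩ := e
      obtain ⟨e3, e4⟩ := h v
      have a1 : 0 ≤ Y v := by
        by_contra hc
        nlinarith
      have a2 : Y v ≤ 1 := by
        by_contra hc
        nlinarith
      rcases (by omega : Y v = 0 ∨ Y v = 1) with e | e <;> rw [e] at e1 e2 ⊢ <;> omega
    have hK : ∑ v, Y v = K := by
      obtain ⟨e1, e2⟩ := key univ hu
      rw [hs] at e1 e2
      have a1 : (K : ℤ) < (∑ v, Y v) + 1 := lt_of_mul_lt_mul_right (by linarith) hm.le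
      have a2 : (∑ v, Y v) - 1 < K := lt_of_mul_lt_mul_right (by linarith) hm.le
      omega
    obtain ⟨U, hU1, hU2⟩ := ih (fun v => u v - Y v) (fun v => (hv v).2)
      (by rw [sum_sub_distrib, hs, hK]; ring) (fun C hC => by
        rw [sum_sub_distrib]
        obtain ⟨-, e2⟩ := key C hC
        have e3 := hq C hC
        by_contra hc
        rcases le_or_gt (∑ v ∈ C, Y v) (quo K C : ℤ) with e | e
        · linarith
        · nlinarith)
    have h01 := fun v => (hv v).1
    refine ⟨Fin.cons (univ.filter fun v => Y v = 1) U, fun i => ?_, fun v => ?_⟩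
    · refine Fin.cases ?_ (fun i => ?_) i
      · rw [Fin.cons_zero]
        refine ⟨?_, fun C hC => ?_⟩
        · rw [sum_eq_card h01, inter_univ] at hK
          exact_mod_cast hK
        · obtain ⟨e1, -⟩ := key C hC
          have e3 := hq C hC
          have a1 : (quo K C : ℤ) < (∑ v ∈ C, Y v) + 1 :=
            lt_of_mul_lt_mul_right (by linarith) hm.le
          rw [sum_eq_card h01] at a1
          omega
      · simpa using hU1 i
    · rw [Fin.sum_univ_succ]
      simp only [Fin.cons_zero, Fin.cons_succ, hU2, mem_filter, mem_univ, true_and]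
      have := h01 v
      split_ifs <;> omega

end Pool.Agent.Lib.MP_d2b090_co.LM
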